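import Pool.Agent.V1174.Coul.Main

/-!
# The positive zeros of Coulomb wave functions are not monotone in `L`

`coulombF L η ρ = C_L(η) ρ ^ (L+1) e ^ (-iρ) M(L + 1 - iη, 2L + 2, 2iρ)` is the regular Coulomb wave
function (`Pool/Agent/V1174/Coul/Basic.lean`).  For `η = 1/10` the first positive zero for
`L = -99/100` (about 3.304) is larger than the first positive zero for `L = -4/5` (about 2.572).
-/

namespace Pool.Agent.Results.MP_75022b_an.NonMonotone

open Pool.Agent.V1174.Coul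

/-- `r` is the `n`-th positive zero of `f`: it is a positive zero and exactly `n - 1` zeros lie in
`(0, r)`. -/
def IsNthZero (f : ℝ → ℂ) (n : ℕ) (r : ℝ) : Prop :=
  0 < r ∧ f r = 0 ∧ {x : ℝ | 0 < x ∧ x < r ∧ f x = 0}.Finite ∧
    {x : ℝ | 0 < x ∧ x < r ∧ f x = 0}.ncard + 1 = n

theorem first_zero (L η : ℝ) (hL : -1 < L) (hη : |η| ≤ 1 / 2) (R : ℝ) (hR : 0 < R) (hR4 : R ≤ 4)
    (hneg : Phi L η R < 0) :
    ∃ r, r < R ∧ Phi L η r = 0 ∧ IsNthZero (coulombF L η) 1 r := by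
  obtain ⟨r, h1, h2, h3, h4⟩ := exists_first_zero (Phi L η) R hR
    ((continuousOn_Phi L η hL hη).mono (Set.Icc_subset_Icc_right hR4))
    (by rw [Phi_zero]; norm_num) hneg
  have hempty : {x : ℝ | 0 < x ∧ x < r ∧ coulombF L η x = 0} = ∅ := by
    rw [Set.eq_empty_iff_forall_notMem]
    rintro x ⟨hx1, hx2, hx3⟩
    exact h4 x hx1 hx2 ((coulombF_eq_zero_iff L η hL x hx1).1 hx3)
  refine ⟨r, h2, h3, h1, (coulombF_eq_zero_iff L η hL r h1).2 h3, ?_, ?_⟩
  · rw [hempty]; exact Set.finite_empty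
  · rw [hempty, Set.ncard_empty]

/-- **Disproof of Q1**: there are `η` and `-1 < L₁ < L₂` such that the first positive zero of the
regular Coulomb wave function with parameters `L₁, η` is strictly larger than the one with
parameters `L₂, η`. -/
theorem result :
    ∃ η L₁ L₂ : ℝ, -1 < L₁ ∧ L₁ < L₂ ∧ ∃ r₁ r₂ : ℝ,
      IsNthZero (coulombF L₁ η) 1 r₁ ∧ IsNthZero (coulombF L₂ η) 1 r₂ ∧ r₂ < r₁ := by
  have hη : |(1 / 10 : ℝ)| ≤ 1 / 2 := by rw [abs_of_pos] <;> norm_num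
  obtain ⟨r₁, -, h2, h3⟩ := first_zero (-99 / 100) (1 / 10) (by norm_num) hη (18 / 5)
    (by norm_num) (by norm_num) Phi1_neg
  obtain ⟨r₂, g1, -, g3⟩ := first_zero (-4 / 5) (1 / 10) (by norm_num) hη (27 / 10)
    (by norm_num) (by norm_num) Phi2_neg
  refine ⟨1 / 10, -99 / 100, -4 / 5, by norm_num, by norm_num, r₁, r₂, h3, g3, ?_⟩
  by_contra hcon
  have hle : r₁ ≤ 27 / 10 := by linarith [not_lt.1 hcon]
  have := Phi1_pos r₁ h3.1.le hle
  linarith

end Pool.Agent.Results.MP_75022b_an.NonMonotone
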